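import Mathlib
import Pool.Agent.KS6_63.PA.Fin
import Pool.Agent.KS6_63.PA.L.Uniq

set_option autoImplicit false

open Filter Topology

/-!
# Which bases of a Hilbert space have Property (A) for some equivalent norm

A Schauder basis of a Hilbert space has Property (A) for some equivalent norm exactly when it is
semi-normalised and quasi-greedy. More generally, a Schauder basis of a Banach space whose
fundamental function is equivalent to `m ^ α`, `0 < α < 1`, has Property (A) for some equivalent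
norm exactly when it is quasi-greedy. Conditional such bases of `ℓ₂` exist.
-/

namespace Pool.Agent.Results.MP_2eb999_an.EveryQuasiGreedyBasis

section Definitions

variable {𝕜 : Type} [RCLike 𝕜] {X : Type} [NormedAddCommGroup X] [NormedSpace 𝕜 X]

/-- `v = ∑ a n • x n`, with norm convergence of the partial sums. -/
def Expands (x : ℕ → X) (a : ℕ → 𝕜) (v : X) : Prop :=
  Tendsto (fun m => ∑ i ∈ Finset.range m, a i • x i) atTop (𝓝 v)

variable (𝕜) in
/-- `x` is a Schauder basis: every vector has a unique expansion. -/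
def IsSchauderBasis (x : ℕ → X) : Prop := ∀ v, ∃! a : ℕ → 𝕜, Expands x a v

variable (𝕜) in
/-- `x` is unconditional: every expansion converges unconditionally. -/
def IsUnconditional (x : ℕ → X) : Prop :=
  ∀ (v : X) (a : ℕ → 𝕜), Expands x a v → Summable fun n => a n • x n

/-- The sequence `b` is a greedy rearrangement of the sequence `a`. -/
def IsGreedyRearrangement (a b : ℕ → 𝕜) : Prop :=
  ∃ π : Equiv.Perm ℕ, (∀ n, ‖b (π n)‖ = ‖a n‖) ∧
    ∀ k, 0 < ‖a k‖ → ‖a k‖ < ⨆ n, ‖a n‖ → π k = k ∧ b k = a k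

/-- Property (A) of `x` with respect to `N`. -/
def PropertyA (N : Seminorm 𝕜 X) (x : ℕ → X) : Prop :=
  ∀ (v w : X) (a b : ℕ → 𝕜), Expands x a v → Expands x b w →
    IsGreedyRearrangement a b → N v = N w

/-- `N` is a norm equivalent to the norm of the space. -/
def IsEquivalentNorm (N : Seminorm 𝕜 X) : Prop :=
  ∃ c C : ℝ, 0 < c ∧ ∀ v, c * ‖v‖ ≤ N v ∧ N v ≤ C * ‖v‖

variable (𝕜) in
/-- `x` has Property (A) for some equivalent norm. -/
def HasPropertyARenorming (x : ℕ → X) : Prop :=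
  ∃ N : Seminorm 𝕜 X, IsEquivalentNorm N ∧ PropertyA N x

/-- The finite set `A` is a greedy set of the sequence `a`. -/
def IsGreedySet (a : ℕ → 𝕜) (A : Finset ℕ) : Prop := ∀ n ∈ A, ∀ k, k ∉ A → ‖a k‖ ≤ ‖a n‖

variable (𝕜) in
/-- `x` is quasi-greedy: the projections on greedy sets are uniformly bounded. -/
def IsQuasiGreedy (x : ℕ → X) : Prop :=
  ∃ K : ℝ, ∀ (v : X) (a : ℕ → 𝕜), Expands x a v → ∀ A : Finset ℕ, IsGreedySet a A →
    ‖∑ n ∈ A, a n • x n‖ ≤ K * ‖v‖

/-- The norms of the vectors are bounded, and bounded away from zero. -/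
def IsSemiNormalized (x : ℕ → X) : Prop :=
  ∃ c C : ℝ, 0 < c ∧ ∀ n, c ≤ ‖x n‖ ∧ ‖x n‖ ≤ C

/-- The fundamental function of `x` is equivalent to `m ^ α`. -/
def HasPowerFundamentalFunction (α : ℝ) (x : ℕ → X) : Prop :=
  ∃ c C : ℝ, 0 < c ∧ ∀ A : Finset ℕ,
    c * (A.card : ℝ) ^ α ≤ ‖∑ n ∈ A, x n‖ ∧ ‖∑ n ∈ A, x n‖ ≤ C * (A.card : ℝ) ^ α

end Definitions

/-- **Main result**, for real and for complex scalars. (1) A Schauder basis of a Hilbert space has
Property (A) for some equivalent norm if and only if it is semi-normalised and quasi-greedy.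
(2) A Schauder basis of a Banach space with fundamental function equivalent to `m ^ α`,
`0 < α < 1`, has Property (A) for some equivalent norm if and only if it is quasi-greedy.
(3) `ℓ₂` has a conditional Schauder basis with Property (A) for some equivalent norm. -/
theorem result (𝕜 : Type) [RCLike 𝕜] :
    (∀ (H : Type) [NormedAddCommGroup H] [InnerProductSpace 𝕜 H] [CompleteSpace H] (x : ℕ → H),
      IsSchauderBasis 𝕜 x →
        (HasPropertyARenorming 𝕜 x ↔ IsSemiNormalized x ∧ IsQuasiGreedy 𝕜 x)) ∧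
    (∀ (X : Type) [NormedAddCommGroup X] [NormedSpace 𝕜 X] [CompleteSpace X] (x : ℕ → X) (α : ℝ),
      0 < α → α < 1 → IsSchauderBasis 𝕜 x → HasPowerFundamentalFunction α x →
        (HasPropertyARenorming 𝕜 x ↔ IsQuasiGreedy 𝕜 x)) ∧
    (∃ x : ℕ → lp (fun _ : ℕ => 𝕜) 2,
      IsSchauderBasis 𝕜 x ∧ ¬ IsUnconditional 𝕜 x ∧ HasPropertyARenorming 𝕜 x) := by
  refine ⟨?_, ?_, ?_⟩
  · intro H _ _ _ x hb
    constructor
    · rintro ⟨N, ⟨c, C, hc, hN⟩, hA⟩
      exact KS6_63.PA.conv_main hb N hc hN hA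
    · rintro ⟨⟨c, C, hc, hx⟩, K, hq⟩
      obtain ⟨N, h1, h2⟩ := KS6_63.PA.renorm_hilbert hb hc hx hq
      exact ⟨N, h1, h2⟩
  · intro X _ _ _ x α hα0 hα1 hb ⟨c, C, hc, hpow⟩
    constructor
    · rintro ⟨N, ⟨c, C, hc, hN⟩, hA⟩
      exact (KS6_63.PA.conv_main hb N hc hN hA).2
    · rintro ⟨K, hq⟩
      obtain ⟨N, h1, h2⟩ := KS6_63.PA.renorm hb hα0 hα1 hc (fun A => (hpow A).1)
        (fun A => (hpow A).2) hq
      exact ⟨N, h1, h2⟩
  · obtain ⟨S, hbad⟩ := H96cond.exists_sys 𝕜
    refine ⟨S.e, fun v => ⟨fun n => S.a n v, S.conv v,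
      fun a ha => funext (H96cond.expands_unique S a v ha)⟩, ?_,
      Seminorm.of (H96cond.NN S) (H96cond.NN_add S) (H96cond.NN_smul S),
      ⟨1 / 640, 6, by norm_num, fun u => ⟨H96cond.NN_lower S u, H96cond.NN_le S u⟩⟩, ?_⟩
    · intro h
      obtain ⟨v, hv⟩ := H96cond.bad_not_summable S hbad
      exact hv (h v _ (S.conv v))
    · rintro u v a b ha hb ⟨π, h1, h2⟩
      have ea := H96cond.expands_unique S a u ha
      have eb := H96cond.expands_unique S b v hb
      show H96cond.NN S u = H96cond.NN S v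
      apply H96cond.NN_eq_of_rearr S u v π
      · intro n
        rw [← ea, ← eb]
        exact h1 n
      · intro k hk hlt
        obtain ⟨n, hn⟩ := hlt
        rw [← ea, ← ea] at hn
        rw [← ea] at hk
        rw [← ea, ← eb]
        apply h2 k (norm_pos_iff.2 hk)
        refine lt_of_lt_of_le hn (le_ciSup (f := fun n => ‖a n‖) ?_ n)
        refine ⟨‖u‖, ?_⟩
        rintro _ ⟨m, rfl⟩
        have h3 := S.l2 {m} u
        rw [Finset.sum_singleton, ← ea] at h3
        exact le_of_sq_le_sq h3 (norm_nonneg _)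

end Pool.Agent.Results.MP_2eb999_an.EveryQuasiGreedyBasis
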